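import Pool.Agent.Helper90.MZ.StmtsA
import Pool.Agent.Helper90.MZ.Base

/-! Module FDOM of MP_79eb7e_lc (helper90): finite bases for domination. -/

set_option autoImplicit false

namespace Pool.Agent.Helper90.MZ

open Pool.Agent.Helper90.TS

variable {V G : Type} [Group G] [MulAction G V] {X : Ctx V G}

/-- the main part: domination over `b` -/
theorem fdom_dom (hT : ST_TVL) (hM : ST_MDLB) {M u b : Set V} (hMM : Mdl X M) (hu : u.Finite)
    {ι : Type} [Finite ι] {c : ι → V} {D : Set (ι → V)} (hbM : b ⊆ M)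
    (hD : X.Ov (b ∪ u) D) (hcD : c ∈ D) (hiso : ∀ x ∈ D, Eqv G (M ∪ u) c x)
    (hSI : SI X b (u ∪ Set.range c) M) : Dom X b u c := by
  refine ⟨D, hD, hcD, ?_⟩
  intro Y hY hYu
  have hMc : M.Countable := hMM.1
  have hbc : b.Countable := hMc.mono hbM
  have huc : u.Countable := hu.countable
  have hcc : (Set.range c).Countable := Set.countable_range c
  have hucc : (u ∪ Set.range c).Countable := huc.union hcc
  obtain ⟨g, hg, hgS⟩ := si_ex (X := X) (hbc.union hucc) hMc hY
  have hgb : g ∈ Fx G b := (fx_union.1 hg).1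
  have hguc : g ∈ Fx G (u ∪ Set.range c) := (fx_union.1 hg).2
  have hgu : g ∈ Fx G u := (fx_union.1 hguc).1
  have hgc : g ∈ Fx G (Set.range c) := (fx_union.1 hguc).2
  have hM' : Mdl X (tr g M) := (hM V G X).2.2.2.2.1 M g hMM
  have hM'c : (tr g M).Countable := hM'.1
  have hbM' : b ⊆ tr g M := by
    have := tr_mono g hbM
    rwa [tr_fx hgb] at this
  have h1 : SI X b (u ∪ Set.range c) (tr g M) := by
    have := (si_fx (X := X) hbc hucc hMc hgb).2 hSI
    rwa [tr_fx hguc] at this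
  have h2 : SI X b (tr g M) ((u ∪ Set.range c) ∪ Y) :=
    si_trans hbc hM'c hucc hY (si_symm hbc hucc hM'c h1) hgS
  -- `u` is independent from `Y` over the new model
  have h3 : SI X b (Y ∪ u) (tr g M) := by
    refine si_symm hbc hM'c (hY.union huc) ?_
    refine si_right hbc hM'c (hucc.union hY) ?_ h2
    rintro x (hx | hx)
    · exact Or.inr hx
    · exact Or.inl (Or.inl hx)
  have h4 : SI X b Y (tr g M) := si_left Set.subset_union_left h3
  have h5 : SI X (b ∪ Y) u (tr g M) := ((si_unionl hbc hY hM'c huc).1 h3).2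
  have h6 : SI X b u (Y ∪ tr g M) :=
    si_trans hbc huc hY hM'c (si_symm hbc hY huc hYu) h5
  have h7 : SI X (tr g M) u (Y ∪ tr g M) :=
    si_up hbc huc (hY.union hM'c) h6 hbM' (fun x hx => Or.inr (Or.inr hx))
  have h8 : SI X (tr g M) u Y := si_right hM'c huc (hY.union hM'c) Set.subset_union_left h7
  have h9 : SI X (tr g M) Y u := si_symm hM'c huc hY h8
  -- `D` isolates `c` over the new model
  have hgc' : g • c = c := by
    funext i
    exact hgc (c i) ⟨i, rfl⟩
  have hiso' : ∀ x ∈ D, Eqv G (tr g M ∪ u) c x := by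
    intro x hx
    have hx' : g⁻¹ • x ∈ D := hD.2 g⁻¹ (inv_mem (fx_union.2 ⟨hgb, hgu⟩)) x hx
    have h := (eqv_tr g (A := M ∪ u)).2 (hiso _ hx')
    rw [tr_union, tr_fx hgu, hgc', smul_inv_smul] at h
    exact h
  have hD' : X.Ov (tr g M ∪ u) D := ov_mono X (Set.union_subset_union_left u hbM') hD
  have hT' := hT V G X (tr g M) u Y hM' huc hY h9 ι D c hD' hcD hiso'
  refine ⟨?_, ?_⟩
  · -- independence
    have hA : (tr g M ∪ u).Countable := hM'c.union huc
    have hC : (tr g M ∪ u ∪ Y).Countable := hA.union hY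
    obtain ⟨c', hc1, hc2⟩ := a_ext V G X (tr g M ∪ u) (tr g M ∪ u ∪ Y) hC Set.subset_union_left ι c
    have hc'D : c' ∈ D := by
      obtain ⟨k, hk, rfl⟩ := hc1
      exact hD'.2 k hk c hcD
    have h10 : X.rk (tr g M ∪ u ∪ Y) c = X.rk (tr g M ∪ u) c := by
      rw [← hc2]
      exact ((a_rkb V G X ι c).2.2.2.2.2 _ c' (hT' c' hc'D)).symm
    have h11 : SI X (tr g M ∪ u) (Set.range c) Y := (rk_si hA hY).1 h10
    have h12 : SI X (tr g M) Y (u ∪ Set.range c) :=
      si_trans hM'c hY huc hcc h9 (si_symm hA hcc hY h11)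
    have h13 : SI X b Y (tr g M ∪ (u ∪ Set.range c)) :=
      si_trans' hY hM'c hucc hbM' h4 h12
    exact si_right hbc hY (hM'c.union hucc) Set.subset_union_right h13
  · intro x hx
    refine eqv_mono ?_ (hT' x hx)
    exact Set.union_subset_union_left Y (Set.union_subset_union_left u hbM')

theorem st_FDOM (hT : ST_TVL) (_hDOM : ST_DOM) (hI : ST_ISLB) (hM : ST_MDLB) : ST_FDOM := by
  intro V G _ _ X M u hMM hu ι _ c hc
  have hMc : M.Countable := hMM.1
  obtain ⟨F, hF, hFfin, D, hD, hcD, hiso, -⟩ :=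
    (hI V G X (M ∪ u) (hMc.union hu.countable) ι c).2.2.2.1 hc
  haveI : Finite u := hu
  obtain ⟨A0, hA0, hA0f, hA0r⟩ := a_rkl V G X M hMc (u ⊕ ι) (Sum.elim (fun x : u => (x : V)) c)
  refine ⟨A0 ∪ (F ∩ M), Set.union_subset hA0 Set.inter_subset_right,
    hA0f.union (hFfin.inter_of_left M), ?_⟩
  intro b hb hbM
  have hbc : b.Countable := hMc.mono hbM
  have hr : Set.range (Sum.elim (fun x : u => (x : V)) c) = u ∪ Set.range c := by
    rw [Set.Sum.elim_range, Subtype.range_coe]
  have hSI : SI X b (u ∪ Set.range c) M := by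
    rw [← hr]
    refine (rk_si hbc hMc).1 ?_
    rw [Set.union_eq_self_of_subset_left hbM]
    have hanti := (a_rkb V G X (u ⊕ ι) (Sum.elim (fun x : u => (x : V)) c)).2.2.2.1
    refine le_antisymm (hanti b M hbM) ?_
    rw [← hA0r]
    exact hanti A0 b (Set.subset_union_left.trans hb)
  refine ⟨?_, hSI⟩
  have hFb : F ⊆ b ∪ u := by
    intro x hx
    rcases hF hx with h | h
    · exact Or.inl (hb (Or.inr ⟨hx, h⟩))
    · exact Or.inr h
  exact fdom_dom hT hM hMM hu hbM (ov_mono X hFb hD) hcD hiso hSI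

end Pool.Agent.Helper90.MZ
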